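import Mathlib
import Pool.Agent.H50.G.S.W89.Sv.Defs
import Pool.Agent.H50.G.S.W89.Sv.Mert
/-! # Admissible constants of the linear sieve and Buchstab steps -/

set_option autoImplicit false

namespace Pool.Agent.W89.Sv

open Finset Filter Topology

/-- `c` is an admissible constant for the upper bound sieve at level `z ^ s` -/
def UA (m : ℕ) (s c : ℝ) : Prop := ∀ ε : ℝ, 0 < ε → ∃ z0 : ℕ, ∀ z : ℕ, z0 ≤ z → ∀ D : ℝ, (z : ℝ) ^ s ≤ D →
  ∀ (ι : Type) (S : Finset ι) (v : ι → ℕ) (X : ℝ), 0 ≤ X → ∀ d : ℕ, 0 < d → d.Coprime (PZ m z) →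
    sift m S v d z ≤ (c + ε) * (X / d * VZ m z) + RR m S v X d z D

/-- `c` is an admissible constant for the lower bound sieve at level `z ^ s` -/
def LA (m : ℕ) (s c : ℝ) : Prop := ∀ ε : ℝ, 0 < ε → ∃ z0 : ℕ, ∀ z : ℕ, z0 ≤ z → ∀ D : ℝ, (z : ℝ) ^ s ≤ D →
  ∀ (ι : Type) (S : Finset ι) (v : ι → ℕ) (X : ℝ), 0 ≤ X → ∀ d : ℕ, 0 < d → d.Coprime (PZ m z) →
    (c - ε) * (X / d * VZ m z) - RR m S v X d z D ≤ sift m S v d z

lemma UA.mono {m : ℕ} {s c c' : ℝ} (h : UA m s c) (hc : c ≤ c') : UA m s c' := by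
  intro ε hε
  obtain ⟨z0, hz0⟩ := h ε hε
  refine ⟨z0, fun z hz D hD ι S v X hX d hd hdz => (hz0 z hz D hD ι S v X hX d hd hdz).trans ?_⟩
  have hV := VZ_pos m z
  have : 0 ≤ X / d * VZ m z := by positivity
  nlinarith

lemma LA.mono {m : ℕ} {s c c' : ℝ} (h : LA m s c) (hc : c' ≤ c) : LA m s c' := by
  intro ε hε
  obtain ⟨z0, hz0⟩ := h ε hε
  refine ⟨z0, fun z hz D hD ι S v X hX d hd hdz => le_trans ?_ (hz0 z hz D hD ι S v X hX d hd hdz)⟩
  have hV := VZ_pos m z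
  have : 0 ≤ X / d * VZ m z := by positivity
  nlinarith

lemma LA_zero (m : ℕ) (s : ℝ) : LA m s 0 := by
  intro ε hε
  refine ⟨0, fun z _ D _ ι S v X hX d _ _ => ?_⟩
  have hV := VZ_pos m z
  have h1 : 0 ≤ X / d * VZ m z := by positivity
  have h2 := RR_nonneg m S v X d z D
  have h3 := sift_nonneg m S v d z
  nlinarith

lemma floor_log {r : ℝ} (hr : 0 < r) :
    Tendsto (fun z : ℕ => Real.log (⌊(z : ℝ) ^ r⌋₊ : ℝ) / Real.log z) atTop (𝓝 r) := by
  have hlog : Tendsto (fun z : ℕ => Real.log (z : ℝ)) atTop atTop :=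
    Real.tendsto_log_atTop.comp tendsto_natCast_atTop_atTop
  have hlo : Tendsto (fun z : ℕ => r - Real.log 2 / Real.log z) atTop (𝓝 r) := by
    have : Tendsto (fun z : ℕ => Real.log 2 / Real.log (z : ℝ)) atTop (𝓝 0) :=
      tendsto_const_nhds.div_atTop hlog
    simpa using this.const_sub r
  have hbig : ∀ᶠ z : ℕ in atTop, 2 ≤ (z : ℝ) ^ r ∧ 1 < (z : ℝ) := by
    have h1 := ((tendsto_rpow_atTop hr).comp (tendsto_natCast_atTop_atTop (R := ℝ))).eventually_ge_atTop 2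
    have h2 := (tendsto_natCast_atTop_atTop (R := ℝ)).eventually_gt_atTop 1
    filter_upwards [h1, h2] with z h1 h2 using ⟨h1, h2⟩
  refine tendsto_of_tendsto_of_tendsto_of_le_of_le' hlo tendsto_const_nhds ?_ ?_
  · filter_upwards [hbig] with z ⟨h1, h2⟩
    have hl := Real.log_pos h2
    have h3 : (z : ℝ) ^ r / 2 ≤ (⌊(z : ℝ) ^ r⌋₊ : ℝ) := by
      have := Nat.sub_one_lt_floor ((z : ℝ) ^ r)
      linarith
    have h5 := Real.log_le_log (by positivity) h3
    rw [Real.log_div (by positivity) (by norm_num), Real.log_rpow (by linarith)] at h5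
    rw [le_div_iff₀ hl, sub_mul, div_mul_cancel₀ _ hl.ne']
    exact h5
  · filter_upwards [hbig] with z ⟨h1, h2⟩
    have hl := Real.log_pos h2
    have h3 : (z : ℝ) ^ r / 2 ≤ (⌊(z : ℝ) ^ r⌋₊ : ℝ) := by
      have := Nat.sub_one_lt_floor ((z : ℝ) ^ r)
      linarith
    have h0 : (0 : ℝ) < (⌊(z : ℝ) ^ r⌋₊ : ℝ) := lt_of_lt_of_le (by positivity) h3
    have h5 := Real.log_le_log h0 (Nat.floor_le (by positivity : 0 ≤ (z : ℝ) ^ r))
    rw [Real.log_rpow (by linarith)] at h5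
    rw [div_le_iff₀ hl]
    exact h5

lemma floor_tendsto {r : ℝ} (hr : 0 < r) : Tendsto (fun z : ℕ => ⌊(z : ℝ) ^ r⌋₊) atTop atTop :=
  tendsto_nat_floor_atTop.comp ((tendsto_rpow_atTop hr).comp (tendsto_natCast_atTop_atTop (R := ℝ)))

/-- the ratio of the products -/
lemma V_ratio (m : ℕ) (hm : m ≠ 0) {s t : ℝ} (hs : 0 < s) (ht : 0 < t) :
    Tendsto (fun z : ℕ => VZ m ⌊(z : ℝ) ^ (s / t)⌋₊ / VZ m z) atTop (𝓝 (t / s)) := by
  have hr : 0 < s / t := by positivity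
  have h1 := (V_lim m hm).comp (floor_tendsto hr)
  have h2 := V_lim m hm
  have h3 := h1.div h2 (cV_pos m).ne'
  rw [div_self (cV_pos m).ne'] at h3
  have h4 := h3.div (floor_log hr) hr.ne'
  have e : (1 : ℝ) / (s / t) = t / s := by rw [one_div_div]
  rw [e] at h4
  refine h4.congr' ?_
  filter_upwards [(tendsto_natCast_atTop_atTop (R := ℝ)).eventually_gt_atTop 1,
    (floor_tendsto hr).eventually_ge_atTop 2] with z h5 h6
  have hl := (Real.log_pos h5).ne'
  have hl2 : Real.log (⌊(z : ℝ) ^ (s / t)⌋₊ : ℝ) ≠ 0 := by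
    apply ne_of_gt
    apply Real.log_pos
    exact_mod_cast (by omega : 1 < ⌊(z : ℝ) ^ (s / t)⌋₊)
  have hV := (VZ_pos m z).ne'
  simp only [Function.comp, Pi.div_apply]
  field_simp

lemma floor_le_self {z : ℕ} (hz : 1 ≤ z) {r : ℝ} (hr : r ≤ 1) : ⌊(z : ℝ) ^ r⌋₊ ≤ z := by
  have h1 : (1 : ℝ) ≤ z := by exact_mod_cast hz
  have h2 : (z : ℝ) ^ r ≤ z := by
    calc (z : ℝ) ^ r ≤ (z : ℝ) ^ (1 : ℝ) := Real.rpow_le_rpow_of_exponent_le h1 hr
      _ = z := Real.rpow_one _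
  have h3 := Nat.floor_le_floor h2
  rwa [Nat.floor_natCast] at h3

lemma floor_pow {z : ℕ} {s t : ℝ} (ht : 0 < t) :
    ((⌊(z : ℝ) ^ (s / t)⌋₊ : ℕ) : ℝ) ^ t ≤ (z : ℝ) ^ s := by
  have h1 : ((⌊(z : ℝ) ^ (s / t)⌋₊ : ℕ) : ℝ) ≤ (z : ℝ) ^ (s / t) := Nat.floor_le (by positivity)
  calc ((⌊(z : ℝ) ^ (s / t)⌋₊ : ℕ) : ℝ) ^ t ≤ ((z : ℝ) ^ (s / t)) ^ t :=
        Real.rpow_le_rpow (Nat.cast_nonneg _) h1 ht.le
    _ = (z : ℝ) ^ s := by
        rw [← Real.rpow_mul (Nat.cast_nonneg _)]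
        congr 1
        field_simp

/-- the common set-up of a Buchstab step -/
lemma step_setup (m : ℕ) (hm : m ≠ 0) {s t : ℝ} (hs : 0 < s) (hst : s < t) {e1 : ℝ} (he : 0 < e1) (z1 : ℕ) :
    ∃ z0 : ℕ, ∀ z : ℕ, z0 ≤ z → ∃ w : ℕ, z1 ≤ w ∧ 1 ≤ w ∧ w ≤ z ∧ (w : ℝ) ^ t ≤ (z : ℝ) ^ s ∧
      |VZ m w / VZ m z - t / s| ≤ e1 := by
  have ht : 0 < t := hs.trans hst
  have h1 := (Metric.tendsto_nhds.1 (V_ratio m hm hs ht)) e1 he
  have hr : 0 < s / t := by positivity
  have h2 := (floor_tendsto hr).eventually_ge_atTop (max z1 1)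
  obtain ⟨z0, hz0⟩ := eventually_atTop.1 (h1.and (h2.and (eventually_ge_atTop 1)))
  refine ⟨z0, fun z hz => ⟨⌊(z : ℝ) ^ (s / t)⌋₊, ?_, ?_, ?_, ?_, ?_⟩⟩
  · exact (le_max_left _ _).trans (hz0 z hz).2.1
  · exact (le_max_right _ _).trans (hz0 z hz).2.1
  · apply floor_le_self (hz0 z hz).2.2
    rw [div_le_one ht]
    exact hst.le
  · exact floor_pow ht
  · have := (hz0 z hz).1
    rw [Real.dist_eq] at this
    exact this.le

/-- the lower Buchstab step -/
theorem lower_step (m : ℕ) (hm : m ≠ 0) {s t c c' : ℝ} (hs : 1 < s) (hst : s < t)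
    (hU : UA m (s - 1) c) (hL : LA m t c') : LA m s (c' * (t / s) - c * (t / s - 1)) := by
  intro ε hε
  have hs0 : 0 < s := by linarith
  have hts : 1 < t / s := by rw [one_lt_div hs0]; exact hst
  set B : ℝ := |c' - c| + 2 * (t / s) + 2 with hB
  have hB0 : 0 < B := by have := abs_nonneg (c' - c); linarith
  set e1 : ℝ := min 1 (ε / B) with he1
  have he10 : 0 < e1 := lt_min one_pos (by positivity)
  have he11 : e1 ≤ 1 := min_le_left _ _
  have he12 : e1 * B ≤ ε := by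
    calc e1 * B ≤ ε / B * B := mul_le_mul_of_nonneg_right (min_le_right _ _) hB0.le
      _ = ε := div_mul_cancel₀ _ hB0.ne'
  obtain ⟨z1, hz1⟩ := hU e1 he10
  obtain ⟨z2, hz2⟩ := hL e1 he10
  obtain ⟨z3, hz3⟩ := step_setup m hm hs0 hst he10 (max z1 z2)
  refine ⟨z3, fun z hz D hD ι S v X hX d hd hdz => ?_⟩
  obtain ⟨w, hw1, hw0, hwz, hwt, hwV⟩ := hz3 z hz
  have hVz := VZ_pos m z
  have hVw := VZ_pos m w
  have hdw : d.Coprime (PZ m w) := Nat.Coprime.coprime_dvd_right (PZ_dvd hwz) hdz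
  have h1 := hz2 w ((le_max_right _ _).trans hw1) D (hwt.trans hD) ι S v X hX d hd hdw
  have h2 : ∀ p ∈ (PP m z).filter (fun p => w ≤ p), sift m S v (d * p) p ≤
      (c + e1) * (X / d) * (VZ m p / p) + RR m S v X (d * p) p (D / p) := by
    intro p hp
    rw [mem_filter, mem_PP] at hp
    have hp0 : (0 : ℝ) < p := by exact_mod_cast hp.1.2.1.pos
    have h3 : (p : ℝ) ^ (s - 1) ≤ D / p := by
      rw [Real.rpow_sub hp0, Real.rpow_one]
      apply div_le_div_of_nonneg_right _ hp0.le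
      refine le_trans ?_ hD
      exact Real.rpow_le_rpow hp0.le (by exact_mod_cast hp.1.1.le) hs0.le
    have h4 : (d * p).Coprime (PZ m p) := by
      apply Nat.Coprime.mul_left
      · exact Nat.Coprime.coprime_dvd_right (PZ_dvd hp.1.1.le) hdz
      · exact coprime_PZ hp.1.2.1
    have h5 := hz1 p ((le_max_left _ _).trans (hw1.trans hp.2)) (D / p) h3 ι S v X hX (d * p)
      (Nat.mul_pos hd hp.1.2.1.pos) h4
    refine h5.trans (le_of_eq ?_)
    push_cast
    congr 1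
    have hd0 : (d : ℝ) ≠ 0 := by exact_mod_cast hd.ne'
    field_simp
  have h3 := sum_le_sum h2
  rw [sum_add_distrib, ← mul_sum, V_tele m hwz] at h3
  have h4 := RR_buch m S v X (d := d) (D := D) hwz
  have h5 := buchstab m S v hwz hdz
  have hY : 0 ≤ X / d := by positivity
  -- the ratio
  set ρ : ℝ := VZ m w / VZ m z with hρ
  have hVwρ : VZ m w = ρ * VZ m z := by rw [hρ]; field_simp
  have h6 := abs_le.1 hwV
  have hmain : (c' * (t / s) - c * (t / s - 1)) - ε ≤ (c' - e1) * ρ - (c + e1) * (ρ - 1) := by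
    have h7 : (c' - c) * (t / s) - |c' - c| * e1 ≤ (c' - c) * ρ := by
      have h8 : |(c' - c) * (ρ - t / s)| ≤ |c' - c| * e1 := by
        rw [abs_mul]
        exact mul_le_mul_of_nonneg_left hwV (abs_nonneg _)
      have h9 := (abs_le.1 h8).1
      linarith
    have h8 : e1 * (2 * ρ - 1) ≤ e1 * (2 * (t / s) + 2) := by
      apply mul_le_mul_of_nonneg_left _ he10.le
      linarith [h6.2]
    have h9 : e1 * B = |c' - c| * e1 + e1 * (2 * (t / s) + 2) := by rw [hB]; ring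
    linarith
  have hYV : 0 ≤ X / d * VZ m z := by positivity
  have h7 := mul_le_mul_of_nonneg_right hmain hYV
  have h8 : ((c' - e1) * ρ - (c + e1) * (ρ - 1)) * (X / d * VZ m z) =
      (c' - e1) * (X / d * VZ m w) - (c + e1) * (X / d) * (VZ m w - VZ m z) := by
    rw [hVwρ]; ring
  rw [h8] at h7
  linarith

/-- the upper Buchstab step -/
theorem upper_step (m : ℕ) (hm : m ≠ 0) {s t c c' : ℝ} (hs : 1 < s) (hst : s < t)
    (hL : LA m (s - 1) c) (hU : UA m t c') : UA m s (c' * (t / s) - c * (t / s - 1)) := by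
  intro ε hε
  have hs0 : 0 < s := by linarith
  have hts : 1 < t / s := by rw [one_lt_div hs0]; exact hst
  set B : ℝ := |c' - c| + 2 * (t / s) + 2 with hB
  have hB0 : 0 < B := by have := abs_nonneg (c' - c); linarith
  set e1 : ℝ := min 1 (ε / B) with he1
  have he10 : 0 < e1 := lt_min one_pos (by positivity)
  have he11 : e1 ≤ 1 := min_le_left _ _
  have he12 : e1 * B ≤ ε := by
    calc e1 * B ≤ ε / B * B := mul_le_mul_of_nonneg_right (min_le_right _ _) hB0.le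
      _ = ε := div_mul_cancel₀ _ hB0.ne'
  obtain ⟨z1, hz1⟩ := hL e1 he10
  obtain ⟨z2, hz2⟩ := hU e1 he10
  obtain ⟨z3, hz3⟩ := step_setup m hm hs0 hst he10 (max z1 z2)
  refine ⟨z3, fun z hz D hD ι S v X hX d hd hdz => ?_⟩
  obtain ⟨w, hw1, hw0, hwz, hwt, hwV⟩ := hz3 z hz
  have hVz := VZ_pos m z
  have hVw := VZ_pos m w
  have hdw : d.Coprime (PZ m w) := Nat.Coprime.coprime_dvd_right (PZ_dvd hwz) hdz
  have h1 := hz2 w ((le_max_right _ _).trans hw1) D (hwt.trans hD) ι S v X hX d hd hdw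
  have h2 : ∀ p ∈ (PP m z).filter (fun p => w ≤ p), (c - e1) * (X / d) * (VZ m p / p) -
      RR m S v X (d * p) p (D / p) ≤ sift m S v (d * p) p := by
    intro p hp
    rw [mem_filter, mem_PP] at hp
    have hp0 : (0 : ℝ) < p := by exact_mod_cast hp.1.2.1.pos
    have h3 : (p : ℝ) ^ (s - 1) ≤ D / p := by
      rw [Real.rpow_sub hp0, Real.rpow_one]
      apply div_le_div_of_nonneg_right _ hp0.le
      refine le_trans ?_ hD
      exact Real.rpow_le_rpow hp0.le (by exact_mod_cast hp.1.1.le) hs0.le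
    have h4 : (d * p).Coprime (PZ m p) := by
      apply Nat.Coprime.mul_left
      · exact Nat.Coprime.coprime_dvd_right (PZ_dvd hp.1.1.le) hdz
      · exact coprime_PZ hp.1.2.1
    have h5 := hz1 p ((le_max_left _ _).trans (hw1.trans hp.2)) (D / p) h3 ι S v X hX (d * p)
      (Nat.mul_pos hd hp.1.2.1.pos) h4
    refine le_trans (le_of_eq ?_) h5
    push_cast
    congr 1
    have hd0 : (d : ℝ) ≠ 0 := by exact_mod_cast hd.ne'
    field_simp
  have h3 := sum_le_sum h2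
  rw [sum_sub_distrib, ← mul_sum, V_tele m hwz] at h3
  have h4 := RR_buch m S v X (d := d) (D := D) hwz
  have h5 := buchstab m S v hwz hdz
  have hY : 0 ≤ X / d := by positivity
  -- the ratio
  set ρ : ℝ := VZ m w / VZ m z with hρ
  have hVwρ : VZ m w = ρ * VZ m z := by rw [hρ]; field_simp
  have h6 := abs_le.1 hwV
  have hmain : (c' + e1) * ρ - (c - e1) * (ρ - 1) ≤ (c' * (t / s) - c * (t / s - 1)) + ε := by
    have h7 : (c' - c) * ρ ≤ (c' - c) * (t / s) + |c' - c| * e1 := by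
      have h8 : |(c' - c) * (ρ - t / s)| ≤ |c' - c| * e1 := by
        rw [abs_mul]
        exact mul_le_mul_of_nonneg_left hwV (abs_nonneg _)
      have h9 := (abs_le.1 h8).2
      linarith
    have h8 : e1 * (2 * ρ - 1) ≤ e1 * (2 * (t / s) + 2) := by
      apply mul_le_mul_of_nonneg_left _ he10.le
      linarith [h6.2]
    have h9 : e1 * B = |c' - c| * e1 + e1 * (2 * (t / s) + 2) := by rw [hB]; ring
    linarith
  have hYV : 0 ≤ X / d * VZ m z := by positivity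
  have h7 := mul_le_mul_of_nonneg_right hmain hYV
  have h8 : ((c' + e1) * ρ - (c - e1) * (ρ - 1)) * (X / d * VZ m z) =
      (c' + e1) * (X / d * VZ m w) - (c - e1) * (X / d) * (VZ m w - VZ m z) := by
    rw [hVwρ]; ring
  rw [h8] at h7
  linarith

/-- monotonicity of `s * F(s)` -/
theorem upper_anti (m : ℕ) (hm : m ≠ 0) {s t c' : ℝ} (hs : 0 < s) (hst : s < t)
    (hU : UA m t c') : UA m s (c' * (t / s)) := by
  intro ε hε
  have hts : 1 < t / s := by rw [one_lt_div hs]; exact hst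
  set B : ℝ := |c'| + 2 * (t / s) + 2 with hB
  have hB0 : 0 < B := by have := abs_nonneg c'; linarith
  set e1 : ℝ := min 1 (ε / B) with he1
  have he10 : 0 < e1 := lt_min one_pos (by positivity)
  have he11 : e1 ≤ 1 := min_le_left _ _
  have he12 : e1 * B ≤ ε := by
    calc e1 * B ≤ ε / B * B := mul_le_mul_of_nonneg_right (min_le_right _ _) hB0.le
      _ = ε := div_mul_cancel₀ _ hB0.ne'
  obtain ⟨z2, hz2⟩ := hU e1 he10
  obtain ⟨z3, hz3⟩ := step_setup m hm hs hst he10 z2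
  refine ⟨z3, fun z hz D hD ι S v X hX d hd hdz => ?_⟩
  obtain ⟨w, hw1, hw0, hwz, hwt, hwV⟩ := hz3 z hz
  have hVz := VZ_pos m z
  have hVw := VZ_pos m w
  have hdw : d.Coprime (PZ m w) := Nat.Coprime.coprime_dvd_right (PZ_dvd hwz) hdz
  have h1 := hz2 w hw1 D (hwt.trans hD) ι S v X hX d hd hdw
  have h5 := sift_anti m S v d hwz
  have h4 := RR_mono m S v X d hwz (le_refl D)
  set ρ : ℝ := VZ m w / VZ m z with hρ
  have hVwρ : VZ m w = ρ * VZ m z := by rw [hρ]; field_simp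
  have h6 := abs_le.1 hwV
  have hmain : (c' + e1) * ρ ≤ c' * (t / s) + ε := by
    have h7 : c' * ρ ≤ c' * (t / s) + |c'| * e1 := by
      have h8 : |c' * (ρ - t / s)| ≤ |c'| * e1 := by
        rw [abs_mul]
        exact mul_le_mul_of_nonneg_left hwV (abs_nonneg _)
      have h9 := (abs_le.1 h8).2
      linarith
    have h8 : e1 * ρ ≤ e1 * (2 * (t / s) + 2) := by
      apply mul_le_mul_of_nonneg_left _ he10.le
      linarith [h6.2]
    have h9 : e1 * B = |c'| * e1 + e1 * (2 * (t / s) + 2) := by rw [hB]; ring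
    linarith
  have hYV : 0 ≤ X / d * VZ m z := by positivity
  have h7 := mul_le_mul_of_nonneg_right hmain hYV
  have h8 : (c' + e1) * ρ * (X / d * VZ m z) = (c' + e1) * (X / d * VZ m w) := by
    rw [hVwρ]; ring
  rw [h8] at h7
  linarith

end Pool.Agent.W89.Sv
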